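import Mathlib
import Pool.Agent.Helper54.Scheme.Main

/-!
# Recolouring and Kempe chains for the common neighbours of a clique
-/

set_option autoImplicit false
set_option linter.unusedSectionVars false

namespace Pool.Agent.Helper70.CC

open Relation Pool.Agent.Helper54.Scheme

variable {V : Type} [DecidableEq V] {K : ℕ}

/-- Exchange of the colours of a Kempe component. -/
theorem swap_proper (G : SimpleGraph V) (Z : Finset V) (c : V → Fin K) (hc : Proper G Z c)
    {i j : Fin K} {x : V} (hxZ : x ∈ Z) (hcx : c x = i) :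
    ∃ c' : V → Fin K, Proper G Z c' ∧
      (∀ u, KConn G Z c {i, j} x u → c' u = Equiv.swap i j (c u)) ∧
      (∀ u, ¬ KConn G Z c {i, j} x u → c' u = c u) := by
  classical
  have hi : i ∈ ({i, j} : Finset (Fin K)) := Finset.mem_insert_self _ _
  have hj : j ∈ ({i, j} : Finset (Fin K)) := Finset.mem_insert_of_mem (Finset.mem_singleton_self _)
  let c' : V → Fin K := fun u => if KConn G Z c {i, j} x u then Equiv.swap i j (c u) else c u
  have hc'1 : ∀ u, KConn G Z c {i, j} x u → c' u = Equiv.swap i j (c u) := fun u h => if_pos h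
  have hc'2 : ∀ u, ¬ KConn G Z c {i, j} x u → c' u = c u := fun u h => if_neg h
  have hQ : ∀ u, KConn G Z c {i, j} x u → c u = i ∨ c u = j := by
    intro u hu
    have := (kconn_mem hu hxZ (hcx.symm ▸ hi)).2
    simpa using this
  have hQ' : ∀ u, KConn G Z c {i, j} x u → c' u = i ∨ c' u = j := by
    intro u hu
    rw [hc'1 u hu]
    rcases hQ u hu with h | h
    · rw [h, Equiv.swap_apply_left]
      exact Or.inr rfl
    · rw [h, Equiv.swap_apply_right]
      exact Or.inl rfl
  refine ⟨c', ?_, hc'1, hc'2⟩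
  intro a ha b hb hab
  have hne := hc a ha b hb hab
  by_cases hQa : KConn G Z c {i, j} x a
  · by_cases hQb : KConn G Z c {i, j} x b
    · rw [hc'1 a hQa, hc'1 b hQb]
      exact fun h => hne ((Equiv.swap i j).injective h)
    · have hcb : c b ≠ i ∧ c b ≠ j := by
        by_contra hcb
        apply hQb
        refine ReflTransGen.tail hQa ⟨hab, ha, hb, ?_, ?_⟩
        · rcases hQ a hQa with h | h
          · rw [h]
            exact hi
          · rw [h]
            exact hj
        · have : c b = i ∨ c b = j := by tauto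
          rcases this with h | h
          · rw [h]
            exact hi
          · rw [h]
            exact hj
      rw [hc'2 b hQb]
      rcases hQ' a hQa with h | h
      · rw [h]
        exact fun h => hcb.1 h.symm
      · rw [h]
        exact fun h => hcb.2 h.symm
  · by_cases hQb : KConn G Z c {i, j} x b
    · have hca : c a ≠ i ∧ c a ≠ j := by
        by_contra hca
        apply hQa
        refine ReflTransGen.tail hQb ⟨hab.symm, hb, ha, ?_, ?_⟩
        · rcases hQ b hQb with h | h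
          · rw [h]
            exact hi
          · rw [h]
            exact hj
        · have : c a = i ∨ c a = j := by tauto
          rcases this with h | h
          · rw [h]
            exact hi
          · rw [h]
            exact hj
      rw [hc'2 a hQa]
      rcases hQ' b hQb with h | h
      · rw [h]
        exact hca.1
      · rw [h]
        exact hca.2
    · rw [hc'2 a hQa, hc'2 b hQb]
      exact hne

/-- A vertex whose colour is unique in `N` reaches every colour in `N`. -/
theorem unique_reach (G : SimpleGraph V) (Z N : Finset V) (hNZ : N ⊆ Z)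
    (hN : ∀ c' : V → Fin K, Proper G Z c' → ∀ i, ∃ x ∈ N, c' x = i)
    (c : V → Fin K) (hc : Proper G Z c) {x : V} (hx : x ∈ N)
    (huniq : ∀ y ∈ N, c y = c x → y = x) {j : Fin K} (hj : j ≠ c x) :
    ∃ y ∈ N, c y = j ∧ KConn G Z c {c x, j} x y := by
  by_contra hcon
  push Not at hcon
  obtain ⟨c', h1, h2, h3⟩ := swap_proper (j := j) G Z c hc (hNZ hx) (rfl : c x = c x)
  obtain ⟨y, hy, hcy⟩ := hN c' h1 (c x)
  by_cases hk : KConn G Z c {c x, j} x y
  · rw [h2 y hk] at hcy
    rw [Equiv.swap_apply_eq_iff, Equiv.swap_apply_left] at hcy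
    exact hcon y hy hcy hk
  · rw [h3 y hk] at hcy
    have := huniq y hy hcy
    subst this
    exact hk ReflTransGen.refl

/-- Every colour is attained on the common neighbours of `Q`. -/
theorem every_colour (G : SimpleGraph V) (W Q : Finset V) (hQW : Q ⊆ W) (hQ : Q.Nonempty)
    (hcl : ∀ a ∈ Q, ∀ b ∈ Q, a ≠ b → G.Adj a b)
    (hW : ∀ g : V → ℕ, (∀ w ∈ W, g w < K + (Q.card - 1)) →
      ∃ a ∈ W, ∃ b ∈ W, G.Adj a b ∧ g a = g b)
    (c : V → Fin K) (hc : Proper G (W \ Q) c) (i : Fin K) :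
    ∃ x ∈ W \ Q, (∀ v ∈ Q, G.Adj v x) ∧ c x = i := by
  classical
  by_contra hcon
  push Not at hcon
  obtain ⟨v0, hv0⟩ := hQ
  have : Inhabited V := ⟨v0⟩
  have h' : ∀ x, x ∈ W \ Q → c x = i → ∃ v, v ∈ Q ∧ ¬ G.Adj v x := by
    intro x hx hcx
    by_contra hno
    push Not at hno
    exact hcon x hx hno hcx
  choose! f hf using h'
  -- numbers for the other vertices of `Q`
  obtain ⟨idx, hidx1, hidx2⟩ : ∃ idx : V → ℕ, (∀ v ∈ Q.erase v0, idx v < Q.card - 1) ∧
      ∀ v ∈ Q.erase v0, ∀ w ∈ Q.erase v0, idx v = idx w → v = w := by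
    refine ⟨fun v => if h : v ∈ Q.erase v0 then ((Q.erase v0).equivFin ⟨v, h⟩ : ℕ) else 0, ?_, ?_⟩
    · intro v hv
      have h1 := ((Q.erase v0).equivFin ⟨v, hv⟩).2
      have h2 := Finset.card_erase_of_mem hv0
      simp only [hv, dif_pos]
      omega
    · intro v hv w hw h
      simp only [hv, hw, dif_pos] at h
      have := (Q.erase v0).equivFin.injective (Fin.ext h)
      exact congrArg Subtype.val this
  let g : V → ℕ := fun x =>
    if x ∈ Q then (if x = v0 then (i : ℕ) else K + idx x)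
    else if c x ≠ i ∨ ¬ G.Adj v0 x then (c x : ℕ) else K + idx (f x)
  have g1 : g v0 = i := by simp only [g, if_pos hv0, if_true]
  have g2 : ∀ x ∈ Q, x ≠ v0 → g x = K + idx x := by
    intro x hx hne
    simp only [g, if_pos hx, if_neg hne]
  have g3 : ∀ x ∈ W \ Q, (c x ≠ i ∨ ¬ G.Adj v0 x) → g x = c x := by
    intro x hx h
    simp only [g, if_neg (Finset.mem_sdiff.1 hx).2, if_pos h]
  have g4 : ∀ x ∈ W \ Q, c x = i → G.Adj v0 x → g x = K + idx (f x) := by
    intro x hx h h'
    have : ¬ (c x ≠ i ∨ ¬ G.Adj v0 x) := by tauto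
    simp only [g, if_neg (Finset.mem_sdiff.1 hx).2, if_neg this]
  have hfe : ∀ x ∈ W \ Q, c x = i → G.Adj v0 x → f x ∈ Q.erase v0 := by
    intro x hx h h'
    refine Finset.mem_erase.2 ⟨?_, (hf x hx h).1⟩
    intro he
    exact (hf x hx h).2 (he ▸ h')
  obtain ⟨a, ha, b, hb, hab, hgab⟩ := hW g (by
    intro w hw
    by_cases hwQ : w ∈ Q
    · by_cases hwv : w = v0
      · rw [hwv, g1]
        have := i.2
        omega
      · rw [g2 w hwQ hwv]
        have := hidx1 w (Finset.mem_erase.2 ⟨hwv, hwQ⟩)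
        omega
    · have hwZ : w ∈ W \ Q := Finset.mem_sdiff.2 ⟨hw, hwQ⟩
      by_cases h : c w = i ∧ G.Adj v0 w
      · rw [g4 w hwZ h.1 h.2]
        have := hidx1 _ (hfe w hwZ h.1 h.2)
        omega
      · rw [g3 w hwZ (by tauto)]
        have := (c w).2
        omega)
  -- the classification of the vertices
  have cls : ∀ w ∈ W, (w = v0 ∧ g w = i) ∨ (w ∈ Q.erase v0 ∧ g w = K + idx w) ∨
      (w ∈ W \ Q ∧ g w = c w ∧ (c w ≠ i ∨ ¬ G.Adj v0 w)) ∨
      (w ∈ W \ Q ∧ g w = K + idx (f w) ∧ c w = i ∧ f w ∈ Q.erase v0 ∧ ¬ G.Adj (f w) w) := by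
    intro w hw
    by_cases hwQ : w ∈ Q
    · by_cases hwv : w = v0
      · left
        exact ⟨hwv, hwv ▸ g1⟩
      · right; left
        exact ⟨Finset.mem_erase.2 ⟨hwv, hwQ⟩, g2 w hwQ hwv⟩
    · have hwZ : w ∈ W \ Q := Finset.mem_sdiff.2 ⟨hw, hwQ⟩
      by_cases h : c w = i ∧ G.Adj v0 w
      · right; right; right
        exact ⟨hwZ, g4 w hwZ h.1 h.2, h.1, hfe w hwZ h.1 h.2, (hf w hwZ h.1).2⟩
      · right; right; left
        have h' : c w ≠ i ∨ ¬ G.Adj v0 w := by tauto
        exact ⟨hwZ, g3 w hwZ h', h'⟩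
  have key : ∀ a b : V, a ∈ W → b ∈ W → G.Adj a b → g a = g b → a ∈ Q → False := by
    intro a b ha hb hab hg haQ
    rcases cls a ha with ⟨h1, h2⟩ | ⟨h1, h2⟩ | ⟨h1, -⟩ | ⟨h1, -⟩
    · rcases cls b hb with ⟨e1, e2⟩ | ⟨e1, e2⟩ | ⟨e1, e2, e3⟩ | ⟨e1, e2, e3, e4, e5⟩
      · rw [h1, e1] at hab
        exact hab.ne rfl
      · have := i.2
        omega
      · rw [h2, e2] at hg
        have : c b = i := (Fin.ext hg).symm
        rcases e3 with e3 | e3
        · exact e3 this
        · exact e3 (h1 ▸ hab)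
      · have := i.2
        omega
    · rcases cls b hb with ⟨e1, e2⟩ | ⟨e1, e2⟩ | ⟨e1, e2, e3⟩ | ⟨e1, e2, e3, e4, e5⟩
      · have := i.2
        omega
      · have : idx a = idx b := by omega
        exact hab.ne (hidx2 a h1 b e1 this)
      · have := (c b).2
        omega
      · have : idx a = idx (f b) := by omega
        have := hidx2 a h1 (f b) e4 this
        exact e5 (this ▸ hab)
    · exact (Finset.mem_sdiff.1 h1).2 haQ
    · exact (Finset.mem_sdiff.1 h1).2 haQ
  by_cases haQ : a ∈ Q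
  · exact key a b ha hb hab hgab haQ
  · by_cases hbQ : b ∈ Q
    · exact key b a hb ha hab.symm hgab.symm hbQ
    · have haZ : a ∈ W \ Q := Finset.mem_sdiff.2 ⟨ha, haQ⟩
      have hbZ : b ∈ W \ Q := Finset.mem_sdiff.2 ⟨hb, hbQ⟩
      have hne := hc a haZ b hbZ hab
      have hne' : (c a : ℕ) ≠ c b := fun h => hne (Fin.ext h)
      have ca := (c a).2
      have cb := (c b).2
      rcases cls a ha with ⟨h1, h2⟩ | ⟨h1, h2⟩ | ⟨-, h2, h3⟩ | ⟨-, h2, h3, -⟩
      · exact haQ (h1 ▸ hv0)
      · exact haQ (Finset.mem_of_mem_erase h1)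
      · rcases cls b hb with ⟨e1, e2⟩ | ⟨e1, e2⟩ | ⟨-, e2, e3⟩ | ⟨-, e2, e3, -⟩
        · exact hbQ (e1 ▸ hv0)
        · exact hbQ (Finset.mem_of_mem_erase e1)
        · omega
        · omega
      · rcases cls b hb with ⟨e1, e2⟩ | ⟨e1, e2⟩ | ⟨-, e2, e3⟩ | ⟨-, e2, e3, -⟩
        · exact hbQ (e1 ▸ hv0)
        · exact hbQ (Finset.mem_of_mem_erase e1)
        · omega
        · exact hne (h3.trans e3.symm)

end Pool.Agent.Helper70.CC
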