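import Mathlib

/-!
# Pairings without bad pairs

`T` a finite set of even cardinality, `F` a symmetric relation with at most `a` partners,
`2 a < |T|`.  There is a pairing of `T` without pairs in `F`: take a pairing with the least number of
bad pairs and exchange.
-/

set_option autoImplicit false
set_option linter.unusedSectionVars false

namespace Pool.Agent.Helper70.CC

open Finset

variable {V : Type*} [DecidableEq V]

/-- A pairing of `T`. -/
structure IsPairing (T : Finset V) (π : V → V) : Prop where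
  mem : ∀ y ∈ T, π y ∈ T
  ne : ∀ y ∈ T, π y ≠ y
  inv : ∀ y ∈ T, π (π y) = y

theorem exists_pairing : ∀ (m : ℕ) (T : Finset V), T.card = 2 * m → ∃ π, IsPairing T π := by
  intro m
  induction m with
  | zero =>
    intro T hT
    have : T = ∅ := Finset.card_eq_zero.1 (by omega)
    subst this
    exact ⟨id, ⟨by simp, by simp, by simp⟩⟩
  | succ m ih =>
    intro T hT
    obtain ⟨x, y, hxy, hsub⟩ : ∃ x y, x ≠ y ∧ x ∈ T ∧ y ∈ T := by
      obtain ⟨x, hx, y, hy, hne⟩ := Finset.one_lt_card.1 (show 1 < T.card by omega)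
      exact ⟨x, y, hne, hx, hy⟩
    obtain ⟨hx, hy⟩ := hsub
    have hy' : y ∈ T.erase x := Finset.mem_erase.2 ⟨hxy.symm, hy⟩
    obtain ⟨π, hπ⟩ := ih ((T.erase x).erase y) (by
      rw [Finset.card_erase_of_mem hy', Finset.card_erase_of_mem hx]; omega)
    have hmem : ∀ z, z ∈ (T.erase x).erase y ↔ z ≠ y ∧ z ≠ x ∧ z ∈ T := by
      intro z; rw [Finset.mem_erase, Finset.mem_erase]
    refine ⟨fun z => if z = x then y else if z = y then x else π z, ?_, ?_, ?_⟩
    · intro z hz
      split_ifs with h1 h2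
      · exact hy
      · exact hx
      · exact ((hmem _).1 (hπ.mem z ((hmem z).2 ⟨h2, h1, hz⟩))).2.2
    · intro z hz
      split_ifs with h1 h2
      · rw [h1]; exact hxy.symm
      · rw [h2]; exact hxy
      · exact hπ.ne z ((hmem z).2 ⟨h2, h1, hz⟩)
    · intro z hz
      by_cases h1 : z = x
      · subst h1
        rw [if_pos rfl, if_neg hxy.symm, if_pos rfl]
      · by_cases h2 : z = y
        · subst h2
          rw [if_neg h1, if_pos rfl, if_pos rfl]
        · have h3 := (hmem z).2 ⟨h2, h1, hz⟩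
          have h4 := (hmem _).1 (hπ.mem z h3)
          rw [if_neg h1, if_neg h2, if_neg h4.2.1, if_neg h4.1]
          exact hπ.inv z h3

/-- Exchange of two pairs. -/
def exch (π : V → V) (y u : V) : V → V := fun z =>
  if z = y then u else if z = u then y else if z = π y then π u else if z = π u then π y else π z

section

variable {T : Finset V} {π : V → V} (hπ : IsPairing T π) {y u : V} (hy : y ∈ T) (hu : u ∈ T)
  (h1 : u ≠ y) (h2 : u ≠ π y)

include hπ hy hu h1 h2

theorem exch_aux : π y ≠ y ∧ π u ≠ u ∧ π u ≠ y ∧ π u ≠ π y := by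
  refine ⟨hπ.ne y hy, hπ.ne u hu, ?_, ?_⟩
  · intro h
    apply h2
    rw [← h, hπ.inv u hu]
  · intro h
    apply h1
    rw [← hπ.inv u hu, h, hπ.inv y hy]

theorem exch_y : exch π y u y = u := if_pos rfl

theorem exch_u : exch π y u u = y := by
  unfold exch
  rw [if_neg h1, if_pos rfl]

theorem exch_y' : exch π y u (π y) = π u := by
  obtain ⟨a1, a2, a3, a4⟩ := exch_aux hπ hy hu h1 h2
  unfold exch
  rw [if_neg a1, if_neg h2.symm, if_pos rfl]

theorem exch_u' : exch π y u (π u) = π y := by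
  obtain ⟨a1, a2, a3, a4⟩ := exch_aux hπ hy hu h1 h2
  unfold exch
  rw [if_neg a3, if_neg a2, if_neg a4, if_pos rfl]

theorem exch_other {z : V} (b1 : z ≠ y) (b2 : z ≠ u) (b3 : z ≠ π y) (b4 : z ≠ π u) :
    exch π y u z = π z := by
  unfold exch
  rw [if_neg b1, if_neg b2, if_neg b3, if_neg b4]

theorem exch_pairing : IsPairing T (exch π y u) := by
  obtain ⟨a1, a2, a3, a4⟩ := exch_aux hπ hy hu h1 h2
  have e1 := exch_y hπ hy hu h1 h2
  have e2 := exch_u hπ hy hu h1 h2
  have e3 := exch_y' hπ hy hu h1 h2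
  have e4 := exch_u' hπ hy hu h1 h2
  have key : ∀ z ∈ T, z = y ∨ z = u ∨ z = π y ∨ z = π u ∨
      (exch π y u z = π z ∧ π z ≠ y ∧ π z ≠ u ∧ π z ≠ π y ∧ π z ≠ π u) := by
    intro z hz
    by_cases b1 : z = y
    · exact Or.inl b1
    by_cases b2 : z = u
    · exact Or.inr (Or.inl b2)
    by_cases b3 : z = π y
    · exact Or.inr (Or.inr (Or.inl b3))
    by_cases b4 : z = π u
    · exact Or.inr (Or.inr (Or.inr (Or.inl b4)))
    refine Or.inr (Or.inr (Or.inr (Or.inr ⟨exch_other hπ hy hu h1 h2 b1 b2 b3 b4, ?_, ?_, ?_, ?_⟩)))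
    · intro h; exact b3 (by rw [← h, hπ.inv z hz])
    · intro h; exact b4 (by rw [← h, hπ.inv z hz])
    · intro h; exact b1 (by rw [← hπ.inv z hz, h, hπ.inv y hy])
    · intro h; exact b2 (by rw [← hπ.inv z hz, h, hπ.inv u hu])
  refine ⟨?_, ?_, ?_⟩
  · intro z hz
    rcases key z hz with rfl | rfl | rfl | rfl | ⟨h, -⟩
    · rw [e1]; exact hu
    · rw [e2]; exact hy
    · rw [e3]; exact hπ.mem u hu
    · rw [e4]; exact hπ.mem y hy
    · rw [h]; exact hπ.mem z hz
  · intro z hz
    rcases key z hz with rfl | rfl | rfl | rfl | ⟨h, -⟩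
    · rw [e1]; exact h1
    · rw [e2]; exact h1.symm
    · rw [e3]; exact a4
    · rw [e4]; exact a4.symm
    · rw [h]; exact hπ.ne z hz
  · intro z hz
    rcases key z hz with rfl | rfl | rfl | rfl | ⟨h, c1, c2, c3, c4⟩
    · rw [e1, e2]
    · rw [e2, e1]
    · rw [e3, e4]
    · rw [e4, e3]
    · rw [h, exch_other hπ hy hu h1 h2 c1 c2 c3 c4]
      exact hπ.inv z hz

end

open Classical in
/-- The set of defects. -/
noncomputable def defects (T : Finset V) (F : V → V → Prop) (π : V → V) : Finset V :=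
  T.filter (fun y => F y (π y))

theorem mem_defects {T : Finset V} {F : V → V → Prop} {π : V → V} {y : V} :
    y ∈ defects T F π ↔ y ∈ T ∧ F y (π y) := by
  classical
  unfold defects
  rw [Finset.mem_filter]

/-- **a good pairing exists** -/
theorem exists_good_pairing (T : Finset V) (m a : ℕ) (hT : T.card = 2 * m)
    (F : V → V → Prop) (hFs : ∀ x y, F x y → F y x)
    (hF : ∀ y ∈ T, ∀ A ⊆ T, (∀ u ∈ A, u ≠ y ∧ F y u) → A.card ≤ a)
    (hbig : 2 * a < T.card) :
    ∃ π, IsPairing T π ∧ ∀ y ∈ T, ¬ F y (π y) := by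
  classical
  obtain ⟨π₀, hπ₀⟩ := exists_pairing m T hT
  obtain ⟨n, hn⟩ : ∃ n, ∃ π, IsPairing T π ∧ (defects T F π).card = n := ⟨_, π₀, hπ₀, rfl⟩
  obtain ⟨π, hπ, hcard⟩ := Nat.find_spec (⟨n, hn⟩ :
    ∃ n, ∃ π, IsPairing T π ∧ (defects T F π).card = n)
  have hmin : ∀ π', IsPairing T π' → (defects T F π).card ≤ (defects T F π').card := by
    intro π' hπ'
    rw [hcard]
    exact Nat.find_min' _ ⟨π', hπ', rfl⟩
  refine ⟨π, hπ, ?_⟩
  intro y hy hyF
  have hyd : y ∈ defects T F π := mem_defects.2 ⟨hy, hyF⟩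
  have hy' := hπ.mem y hy
  have hinj : ∀ x ∈ T, ∀ x' ∈ T, π x = π x' → x = x' := by
    intro x hx x' hx' h
    rw [← hπ.inv x hx, h, hπ.inv x' hx']
  let A1 : Finset V := T.filter (fun u => u ≠ y ∧ F y u)
  let A2 : Finset V := T.filter (fun u => π u ≠ π y ∧ F (π y) (π u))
  have hA1 : A1.card ≤ a := hF y hy A1 (Finset.filter_subset _ _) (fun u hu =>
    (Finset.mem_filter.1 hu).2)
  have hA2 : A2.card ≤ a := by
    have h1 : (A2.image π).card = A2.card := by
      refine Finset.card_image_of_injOn ?_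
      intro u hu u' hu' h
      exact hinj u (Finset.mem_filter.1 (Finset.mem_coe.1 hu)).1 u'
        (Finset.mem_filter.1 (Finset.mem_coe.1 hu')).1 h
    rw [← h1]
    refine hF (π y) hy' _ ?_ ?_
    · intro v hv
      obtain ⟨u, hu, rfl⟩ := Finset.mem_image.1 hv
      exact hπ.mem u (Finset.mem_filter.1 hu).1
    · intro v hv
      obtain ⟨u, hu, rfl⟩ := Finset.mem_image.1 hv
      exact (Finset.mem_filter.1 hu).2
  have hy1 : π y ∈ A1 := Finset.mem_filter.2 ⟨hy', hπ.ne y hy, hyF⟩
  have hy2 : π y ∈ A2 := by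
    refine Finset.mem_filter.2 ⟨hy', ?_⟩
    rw [hπ.inv y hy]
    exact ⟨(hπ.ne y hy).symm, hFs _ _ hyF⟩
  have hbad : (insert y (A1 ∪ A2)).card ≤ 2 * a := by
    have h1 := Finset.card_insert_le y (A1 ∪ A2)
    have h2 := Finset.card_union_add_card_inter A1 A2
    have h3 : 0 < (A1 ∩ A2).card := Finset.card_pos.2 ⟨π y, Finset.mem_inter.2 ⟨hy1, hy2⟩⟩
    omega
  obtain ⟨u, huT, hub⟩ : ∃ u ∈ T, u ∉ insert y (A1 ∪ A2) := by
    by_contra hcon
    push Not at hcon
    have : T ⊆ insert y (A1 ∪ A2) := fun u hu => hcon u hu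
    have := Finset.card_le_card this
    omega
  have hu' := hπ.mem u huT
  rw [Finset.mem_insert, Finset.mem_union, not_or, not_or] at hub
  obtain ⟨b0, hb1, hb2⟩ := hub
  have b0' : u ≠ π y := fun h => hb1 (h ▸ hy1)
  have b2 : ¬ F y u := fun h => hb1 (Finset.mem_filter.2 ⟨huT, b0, h⟩)
  have b3 : ¬ F (π y) (π u) := by
    intro h
    refine hb2 (Finset.mem_filter.2 ⟨huT, ?_, h⟩)
    intro h'
    exact b0 (hinj u huT y hy h')
  have e1 := exch_y hπ hy huT b0 b0'
  have e2 := exch_u hπ hy huT b0 b0'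
  have e3 := exch_y' hπ hy huT b0 b0'
  have e4 := exch_u' hπ hy huT b0 b0'
  have e5 := fun {z : V} => exch_other (z := z) hπ hy huT b0 b0'
  have hπ' := exch_pairing hπ hy huT b0 b0'
  have hsub : defects T F (exch π y u) ⊆ defects T F π := by
    intro z hz
    obtain ⟨hz, hd⟩ := mem_defects.1 hz
    by_cases h1 : z = y
    · subst h1
      rw [e1] at hd
      exact absurd hd b2
    by_cases h2 : z = u
    · subst h2
      rw [e2] at hd
      exact absurd (hFs _ _ hd) b2
    by_cases h3 : z = π y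
    · subst h3
      rw [e3] at hd
      exact absurd hd b3
    by_cases h4 : z = π u
    · subst h4
      rw [e4] at hd
      exact absurd (hFs _ _ hd) b3
    rw [e5 h1 h2 h3 h4] at hd
    exact mem_defects.2 ⟨hz, hd⟩
  have hnot : y ∉ defects T F (exch π y u) := by
    intro h
    have hd := (mem_defects.1 h).2
    rw [e1] at hd
    exact b2 hd
  have hlt : (defects T F (exch π y u)).card < (defects T F π).card :=
    Finset.card_lt_card ⟨hsub, fun h => hnot (h hyd)⟩
  have := hmin _ hπ'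
  omega

/-- a set of representatives of half the cardinality -/
theorem exists_reps (T : Finset V) (π : V → V) (hπ : IsPairing T π) (R : ℕ)
    (hR : 2 * R ≤ T.card) : ∃ P : Finset V, P ⊆ T ∧ P.card = R ∧
      ∀ y ∈ P, ∀ z ∈ P, y ≠ π z ∧ (y ≠ z → π y ≠ π z) := by
  classical
  obtain ⟨idx, hidx⟩ : ∃ idx : V → ℕ, ∀ v ∈ T, ∀ w ∈ T, idx v = idx w → v = w := by
    refine ⟨fun v => if h : v ∈ T then (T.equivFin ⟨v, h⟩ : ℕ) else 0, ?_⟩
    intro v hv w hw h
    simp only [hv, hw, dif_pos] at h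
    have := T.equivFin.injective (Fin.ext h)
    exact congrArg Subtype.val this
  let P0 := T.filter (fun y => idx y < idx (π y))
  have hP0 : T.card ≤ 2 * P0.card := by
    have hsub : T ⊆ P0 ∪ P0.image π := by
      intro y hy
      have hy' := hπ.mem y hy
      rcases lt_trichotomy (idx y) (idx (π y)) with h | h | h
      · exact Finset.mem_union_left _ (Finset.mem_filter.2 ⟨hy, h⟩)
      · exact absurd (hidx _ hy _ hy' h).symm (hπ.ne y hy)
      · refine Finset.mem_union_right _ (Finset.mem_image.2 ⟨π y, ?_, hπ.inv y hy⟩)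
        refine Finset.mem_filter.2 ⟨hy', ?_⟩
        rw [hπ.inv y hy]
        exact h
    have h1 := Finset.card_le_card hsub
    have h2 := Finset.card_union_le P0 (P0.image π)
    have h3 : (P0.image π).card ≤ P0.card := Finset.card_image_le
    omega
  obtain ⟨P, hPP, hPcard⟩ := Finset.exists_subset_card_eq (show R ≤ P0.card by omega)
  have hPT : ∀ y ∈ P, y ∈ T := fun y hy => (Finset.mem_filter.1 (hPP hy)).1
  have hPi : ∀ y ∈ P, idx y < idx (π y) := fun y hy => (Finset.mem_filter.1 (hPP hy)).2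
  refine ⟨P, hPT, hPcard, ?_⟩
  intro y hy z hz
  refine ⟨?_, ?_⟩
  · intro h
    have h1 := hPi y hy
    have h2 := hPi z hz
    rw [h, hπ.inv z (hPT z hz)] at h1
    omega
  · intro hyz h
    apply hyz
    rw [← hπ.inv y (hPT y hy), h, hπ.inv z (hPT z hz)]

end Pool.Agent.Helper70.CC
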