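import Mathlib
import Pool.Agent.Helper70.CC.Kempe
import Pool.Agent.Helper70.CC.Pair

/-!
# Schemes from a clique with a nearly complete common neighbourhood
-/

set_option autoImplicit false
set_option linter.unusedSectionVars false
set_option linter.unusedVariables false

namespace Pool.Agent.Helper70.CC

open Relation Pool.Agent.Helper54.Scheme

variable {V : Type} [DecidableEq V] {K : ℕ}

/-- Scheme from a finite set of roots with blocks. -/
theorem scheme_of_roots (G : SimpleGraph V) (A : Finset V) (B : V → Set V)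
    (hB : ∀ x ∈ A, x ∈ B x)
    (hdis : ∀ x ∈ A, ∀ y ∈ A, x ≠ y → Disjoint (B x) (B y))
    (hw : ∀ x ∈ A, ∀ y ∈ A, x ≠ y → ∃ w : G.Walk x y, ∀ z ∈ w.support, z ∈ B x ∪ B y)
    (q : ℕ) (hq : q ≤ A.card) : HasScheme G q := by
  classical
  obtain ⟨A0, hA0, hcard⟩ := Finset.exists_subset_card_eq hq
  let e : Fin q ≃ A0 := (Finset.equivFinOfCardEq hcard).symm
  have he : ∀ i, (e i : V) ∈ A := fun i => hA0 (e i).2
  have hne : ∀ i j : Fin q, i ≠ j → (e i : V) ≠ e j := fun i j hij h =>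
    hij (e.injective (Subtype.ext h))
  obtain ⟨P, h1, h2, h3⟩ := scheme_of_walks (G := G) (fun i => B (e i)) (fun i => (e i : V))
    (fun i => hB _ (he i)) (fun i j hij => hdis _ (he i) _ (he j) (hne i j hij))
    (fun i j hij => hw _ (he i) _ (he j) (hne i j hij.ne))
  exact ⟨fun i => B (e i), fun i => (e i : V), P, fun i => hB _ (he i),
    fun i j hij => hdis _ (he i) _ (he j) (hne i j hij), h1, h2, h3⟩

/-- A walk of length one. -/
theorem walk_one {G : SimpleGraph V} {x y : V} {S : Set V} (h : G.Adj x y) (hx : x ∈ S)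
    (hy : y ∈ S) : ∃ w : G.Walk x y, ∀ z ∈ w.support, z ∈ S := by
  refine ⟨h.toWalk, fun z hz => ?_⟩
  have hz' : z = x ∨ z = y := by simpa using hz
  rcases hz' with rfl | rfl
  · exact hx
  · exact hy

/-- A composite walk. -/
theorem walk_comp {G : SimpleGraph V} {x y t : V} {S : Set V}
    (h1 : ∃ w : G.Walk x y, ∀ z ∈ w.support, z ∈ S)
    (h2 : ∃ w : G.Walk y t, ∀ z ∈ w.support, z ∈ S) :
    ∃ w : G.Walk x t, ∀ z ∈ w.support, z ∈ S := by
  obtain ⟨w1, h1⟩ := h1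
  obtain ⟨w2, h2⟩ := h2
  refine ⟨w1.append w2, fun z hz => ?_⟩
  rw [SimpleGraph.Walk.mem_support_append_iff] at hz
  rcases hz with hz | hz
  · exact h1 z hz
  · exact h2 z hz

theorem walk_rev {G : SimpleGraph V} {x y : V} {S : Set V}
    (h1 : ∃ w : G.Walk x y, ∀ z ∈ w.support, z ∈ S) :
    ∃ w : G.Walk y x, ∀ z ∈ w.support, z ∈ S := by
  obtain ⟨w1, h1⟩ := h1
  refine ⟨w1.reverse, fun z hz => ?_⟩
  rw [SimpleGraph.Walk.support_reverse, List.mem_reverse] at hz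
  exact h1 z hz

/-- A walk of length at most one. -/
theorem walk_pair {G : SimpleGraph V} {x y : V} {S : Set V} (h : y = x ∨ G.Adj x y) (hx : x ∈ S)
    (hy : y ∈ S) : ∃ w : G.Walk x y, ∀ z ∈ w.support, z ∈ S := by
  rcases h with rfl | h
  · refine ⟨SimpleGraph.Walk.nil, fun z hz => ?_⟩
    rw [SimpleGraph.Walk.support_nil, List.mem_singleton] at hz
    rw [hz]
    exact hx
  · exact walk_one h hx hy

/-- The choice of the pairs. -/
theorem choose_pairs (G : SimpleGraph V) (N T : Finset V) (hTN : T ⊆ N) (D D' : ℕ)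
    (hD : ∀ w ∈ T, ∀ A ⊆ N, (∀ u ∈ A, u ≠ w ∧ ¬ G.Adj w u) → A.card ≤ D)
    (hD' : ∀ w ∈ N, ∀ A ⊆ T, (∀ u ∈ A, u ≠ w ∧ ¬ G.Adj w u) → A.card ≤ D') (R : ℕ)
    (hR : 2 * R ≤ T.card) (hbig : T = ∅ ∨ 2 * (D * D') + 2 ≤ T.card) :
    ∃ (P : Finset V) (π : V → V), P ⊆ T ∧ P.card = R ∧ (∀ y ∈ P, π y ∈ T) ∧
      (∀ y ∈ P, G.Adj y (π y)) ∧ (∀ y ∈ P, ∀ z ∈ P, y ≠ z → y ≠ π z ∧ π y ≠ π z) ∧
      (∀ y ∈ P, ∀ x ∈ N, x ≠ y → x ≠ π y → G.Adj x y ∨ G.Adj x (π y)) := by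
  classical
  rcases hbig with hT0 | hbig
  · subst hT0
    refine ⟨∅, id, Finset.empty_subset _, ?_, by simp, by simp, by simp, by simp⟩
    rw [Finset.card_empty] at hR ⊢
    omega
  obtain ⟨T1, hT1, hT1card⟩ := Finset.exists_subset_card_eq
    (show 2 * (T.card / 2) ≤ T.card by omega)
  let F : V → V → Prop := fun y u => ¬ G.Adj y u ∨ ∃ x ∈ N, x ≠ y ∧ x ≠ u ∧ ¬ G.Adj x y ∧
    ¬ G.Adj x u
  have hFs : ∀ x y, F x y → F y x := by
    rintro x y (h2 | ⟨z, hz, h3, h4, h5, h6⟩)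
    · exact Or.inl fun h => h2 h.symm
    · exact Or.inr ⟨z, hz, h4, h3, h6, h5⟩
  have hF : ∀ y ∈ T1, ∀ A ⊆ T1, (∀ u ∈ A, u ≠ y ∧ F y u) → A.card ≤ D * D' := by
    intro y hy A hA hAF
    have hyT := hT1 hy
    let Hn := N.filter (fun x => x ≠ y ∧ ¬ G.Adj y x)
    have hHn : Hn.card ≤ D := hD y hyT _ (Finset.filter_subset _ _) (fun u hu =>
      (Finset.mem_filter.1 hu).2)
    let Hx : V → Finset V := fun x => T.filter (fun u => u ≠ x ∧ ¬ G.Adj x u)
    have hHx : ∀ x ∈ Hn, ((Hx x).erase y).card ≤ D' - 1 ∧ 1 ≤ D' := by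
      intro x hx
      obtain ⟨hxN, hxy, hadj⟩ := Finset.mem_filter.1 hx
      have h1 : (Hx x).card ≤ D' := hD' x hxN _ (Finset.filter_subset _ _) (fun u hu =>
        (Finset.mem_filter.1 hu).2)
      have h2 : y ∈ Hx x := Finset.mem_filter.2 ⟨hyT, hxy.symm, fun h => hadj h.symm⟩
      have h3 := Finset.card_pos.2 ⟨y, h2⟩
      rw [Finset.card_erase_of_mem h2]
      omega
    have hsub : A ⊆ Hn ∪ Hn.biUnion (fun x => (Hx x).erase y) := by
      intro u hu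
      obtain ⟨h1, h2⟩ := hAF u hu
      rcases h2 with h2 | ⟨x, hx, h3, h4, h5, h6⟩
      · exact Finset.mem_union_left _ (Finset.mem_filter.2 ⟨hTN (hT1 (hA hu)), h1, h2⟩)
      · refine Finset.mem_union_right _ (Finset.mem_biUnion.2 ⟨x, ?_, ?_⟩)
        · exact Finset.mem_filter.2 ⟨hx, h3, fun h => h5 h.symm⟩
        · exact Finset.mem_erase.2 ⟨h1, Finset.mem_filter.2 ⟨hT1 (hA hu), h4.symm, h6⟩⟩
    have h1 := Finset.card_le_card hsub
    have h2 := Finset.card_union_le Hn (Hn.biUnion (fun x => (Hx x).erase y))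
    have h3 : (Hn.biUnion (fun x => (Hx x).erase y)).card ≤ Hn.card * (D' - 1) :=
      Finset.card_biUnion_le_card_mul _ _ _ (fun x hx => (hHx x hx).1)
    rcases Finset.eq_empty_or_nonempty Hn with h0 | ⟨x, hx⟩
    · rw [h0, Finset.card_empty] at h3 h2
      have : A.card = 0 := by
        rw [h0, Finset.empty_union] at h1
        omega
      omega
    · have h4 := (hHx x hx).2
      obtain ⟨d, rfl⟩ : ∃ d, D' = d + 1 := ⟨D' - 1, by omega⟩
      rw [Nat.add_sub_cancel] at h3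
      have h5 : Hn.card * (d + 1) ≤ D * (d + 1) := Nat.mul_le_mul_right _ hHn
      have h6 : Hn.card * (d + 1) = Hn.card * d + Hn.card := by ring
      omega
  obtain ⟨π, hπ, hπF⟩ := exists_good_pairing T1 (T.card / 2) (D * D') hT1card F hFs hF (by
      rw [hT1card]
      omega)
  obtain ⟨P, hPT, hPcard, hPne⟩ := exists_reps T1 π hπ R (by omega)
  refine ⟨P, π, fun y hy => hT1 (hPT hy), hPcard, fun y hy => hT1 (hπ.mem y (hPT hy)), ?_,
    ?_, ?_⟩
  · intro y hy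
    by_contra h
    exact hπF y (hPT hy) (Or.inl h)
  · intro y hy z hz hyz
    exact ⟨(hPne y hy z hz).1, (hPne y hy z hz).2 hyz⟩
  · intro y hy x hx h1 h2
    by_contra h
    rw [not_or] at h
    exact hπF y (hPT hy) (Or.inr ⟨x, hx, h1, h2, h.1, h.2⟩)

/-- **Assembling the scheme** -/
theorem assemble (G : SimpleGraph V) (W Q : Finset V) (hQW : Q ⊆ W) (hQ : Q.Nonempty)
    (hcl : ∀ a ∈ Q, ∀ b ∈ Q, a ≠ b → G.Adj a b)
    (hW : ∀ g : V → ℕ, (∀ w ∈ W, g w < K + (Q.card - 1)) →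
      ∃ a ∈ W, ∃ b ∈ W, G.Adj a b ∧ g a = g b)
    (c : V → Fin K) (hc : Proper G (W \ Q) c)
    (N S : Finset V) (hN : ∀ w, w ∈ N ↔ w ∈ W ∧ ∀ v ∈ Q, G.Adj v w)
    (hS : ∀ w, w ∈ S ↔ w ∈ N ∧ ∀ u ∈ N, c u = c w → u = w)
    (P : Finset V) (π : V → V)
    (hPN : ∀ y ∈ P, (y ∈ N ∧ y ∉ S) ∧ (π y ∈ N ∧ π y ∉ S))
    (hadj : ∀ y ∈ P, π y = y ∨ G.Adj y (π y))
    (hne : ∀ y ∈ P, ∀ z ∈ P, y ≠ z → y ≠ π z ∧ π y ≠ π z)
    (hPS : ∀ y ∈ P, ∀ x ∈ S, G.Adj x y ∨ G.Adj x (π y))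
    (hPP : ∀ y ∈ P, ∀ z ∈ P, y ≠ z → G.Adj y z ∨ G.Adj y (π z) ∨ G.Adj (π y) z ∨
      G.Adj (π y) (π z))
    (hcard : K ≤ S.card + P.card) :
    HasScheme G (K + Q.card) := by
  classical
  have hNZ : N ⊆ W \ Q := by
    intro w hw
    obtain ⟨h1, h2⟩ := (hN w).1 hw
    exact Finset.mem_sdiff.2 ⟨h1, fun h => (h2 w h).ne rfl⟩
  have hSN : S ⊆ N := fun w hw => ((hS w).1 hw).1
  have hall : ∀ c' : V → Fin K, Proper G (W \ Q) c' → ∀ i, ∃ x ∈ N, c' x = i := by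
    intro c' hc' i
    obtain ⟨x, hx, hQx, hcx⟩ := every_colour G W Q hQW hQ hcl hW c' hc' i
    exact ⟨x, (hN x).2 ⟨(Finset.mem_sdiff.1 hx).1, hQx⟩, hcx⟩
  have hSinj : Set.InjOn c (S : Set V) := by
    intro x hx y hy hxy
    exact ((hS y).1 (Finset.mem_coe.1 hy)).2 x (hSN (Finset.mem_coe.1 hx)) hxy
  have hNQ : ∀ y ∈ N, y ∉ Q := fun y hy => (Finset.mem_sdiff.1 (hNZ hy)).2
  have hSQ : ∀ y ∈ S, y ∉ Q := fun y hy => hNQ y (hSN hy)
  -- the blocks
  let B : V → Set V := fun x =>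
    if x ∈ Q then {x} else if x ∈ S then {u | u ∈ W \ Q ∧ c u = c x} else {x, π x}
  have hBQ : ∀ x ∈ Q, B x = {x} := fun x hx => if_pos hx
  have hBS : ∀ x ∈ S, B x = {u | u ∈ W \ Q ∧ c u = c x} := by
    intro x hx
    simp only [B, if_neg (hSQ x hx), if_pos hx]
  have hBP : ∀ x ∈ P, B x = {x, π x} := by
    intro x hx
    simp only [B, if_neg (hNQ x (hPN x hx).1.1), if_neg (hPN x hx).1.2]
  -- the relation between the blocks
  let Rl : V → V → Prop := fun x y =>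
    Disjoint (B x) (B y) ∧ ∃ w : G.Walk x y, ∀ z ∈ w.support, z ∈ B x ∪ B y
  have hsymm : ∀ x y, Rl x y → Rl y x := by
    rintro x y ⟨h1, h2⟩
    refine ⟨h1.symm, ?_⟩
    rw [Set.union_comm]
    exact walk_rev h2
  have hself : ∀ x, x ∈ S ∨ x ∈ P ∨ x ∈ Q → x ∈ B x := by
    intro x hx
    rcases hx with hx | hx | hx
    · rw [hBS x hx]
      exact ⟨hNZ (hSN hx), rfl⟩
    · rw [hBP x hx]
      exact Set.mem_insert _ _
    · rw [hBQ x hx]
      exact Set.mem_singleton _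
  have rQQ : ∀ x ∈ Q, ∀ y ∈ Q, x ≠ y → Rl x y := by
    intro x hx y hy hne
    refine ⟨?_, walk_one (hcl x hx y hy hne) (Or.inl (hself x (Or.inr (Or.inr hx))))
      (Or.inr (hself y (Or.inr (Or.inr hy))))⟩
    rw [hBQ x hx, hBQ y hy]
    exact Set.disjoint_singleton.2 hne
  have rQS : ∀ x ∈ Q, ∀ y ∈ S, Rl x y := by
    intro x hx y hy
    refine ⟨?_, walk_one (((hN y).1 (hSN hy)).2 x hx) (Or.inl (hself x (Or.inr (Or.inr hx))))
      (Or.inr (hself y (Or.inl hy)))⟩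
    rw [hBQ x hx, hBS y hy, Set.disjoint_singleton_left]
    rintro ⟨h, -⟩
    exact (Finset.mem_sdiff.1 h).2 hx
  have rQP : ∀ x ∈ Q, ∀ y ∈ P, Rl x y := by
    intro x hx y hy
    refine ⟨?_, walk_one (((hN y).1 (hPN y hy).1.1).2 x hx)
      (Or.inl (hself x (Or.inr (Or.inr hx)))) (Or.inr (hself y (Or.inr (Or.inl hy))))⟩
    rw [hBQ x hx, hBP y hy, Set.disjoint_singleton_left]
    rintro (h | h)
    · exact hNQ y (hPN y hy).1.1 (h ▸ hx)
    · rw [Set.mem_singleton_iff] at h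
      exact hNQ _ (hPN y hy).2.1 (h ▸ hx)
  have rSS : ∀ x ∈ S, ∀ y ∈ S, x ≠ y → Rl x y := by
    intro x hx y hy hne
    have hcxy : c x ≠ c y := fun h => hne (hSinj (Finset.mem_coe.2 hx) (Finset.mem_coe.2 hy) h)
    refine ⟨?_, ?_⟩
    · rw [hBS x hx, hBS y hy, Set.disjoint_left]
      rintro u ⟨-, h1⟩ ⟨-, h2⟩
      exact hcxy (h1.symm.trans h2)
    · obtain ⟨z, hz, hcz, hk⟩ := unique_reach G (W \ Q) N hNZ hall c hc (hSN hx)
        (fun u hu h => ((hS x).1 hx).2 u hu h) hcxy.symm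
      have hzy : z = y := ((hS y).1 hy).2 z hz hcz
      subst hzy
      obtain ⟨w, hw⟩ := kconn_walk hk (hNZ (hSN hx)) (Finset.mem_insert_self _ _)
      refine ⟨w, fun u hu => ?_⟩
      obtain ⟨h1, h2⟩ := hw u hu
      rw [Finset.mem_insert, Finset.mem_singleton] at h2
      rcases h2 with h2 | h2
      · left
        rw [hBS x hx]
        exact ⟨h1, h2⟩
      · right
        rw [hBS z hy]
        exact ⟨h1, h2⟩
  have rSP : ∀ x ∈ S, ∀ y ∈ P, Rl x y := by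
    intro x hx y hy
    have hx1 := hself x (Or.inl hx)
    have hy1 := hself y (Or.inr (Or.inl hy))
    have hy2 : π y ∈ B y := by
      rw [hBP y hy]
      exact Set.mem_insert_of_mem _ rfl
    have hcol : ∀ u ∈ N, u ∉ S → c u ≠ c x := by
      intro u hu hu' h
      have := ((hS x).1 hx).2 u hu h
      subst this
      exact hu' hx
    refine ⟨?_, ?_⟩
    · rw [hBS x hx, hBP y hy, Set.disjoint_left]
      rintro u ⟨-, h1⟩ (h2 | h2)
      · exact hcol y (hPN y hy).1.1 (hPN y hy).1.2 (h2 ▸ h1)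
      · rw [Set.mem_singleton_iff] at h2
        exact hcol _ (hPN y hy).2.1 (hPN y hy).2.2 (h2 ▸ h1)
    · rcases hPS y hy x hx with h | h
      · exact walk_one h (Or.inl hx1) (Or.inr hy1)
      · exact walk_comp (walk_one h (Or.inl hx1) (Or.inr hy2))
          (walk_rev (walk_pair (hadj y hy) (Or.inr hy1) (Or.inr hy2)))
  have rPP : ∀ x ∈ P, ∀ y ∈ P, x ≠ y → Rl x y := by
    intro x hx y hy hxy
    have hx1 := hself x (Or.inr (Or.inl hx))
    have hy1 := hself y (Or.inr (Or.inl hy))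
    have hx2 : π x ∈ B x := by
      rw [hBP x hx]
      exact Set.mem_insert_of_mem _ rfl
    have hy2 : π y ∈ B y := by
      rw [hBP y hy]
      exact Set.mem_insert_of_mem _ rfl
    obtain ⟨n1, n2⟩ := hne x hx y hy hxy
    obtain ⟨n3, -⟩ := hne y hy x hx hxy.symm
    refine ⟨?_, ?_⟩
    · rw [hBP x hx, hBP y hy, Set.disjoint_left]
      rintro u (h1 | h1) (h2 | h2)
      · exact hxy (h1.symm.trans h2)
      · rw [Set.mem_singleton_iff] at h2
        exact n1 (h1.symm.trans h2)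
      · rw [Set.mem_singleton_iff] at h1
        exact n3 (h2.symm.trans h1)
      · rw [Set.mem_singleton_iff] at h1 h2
        exact n2 (h1.symm.trans h2)
    · have w1 := walk_pair (S := B x ∪ B y) (hadj x hx) (Or.inl hx1) (Or.inl hx2)
      have w2 := walk_rev (walk_pair (S := B x ∪ B y) (hadj y hy) (Or.inr hy1) (Or.inr hy2))
      rcases hPP x hx y hy hxy with h | h | h | h
      · exact walk_one h (Or.inl hx1) (Or.inr hy1)
      · exact walk_comp (walk_one h (Or.inl hx1) (Or.inr hy2)) w2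
      · exact walk_comp w1 (walk_one h (Or.inl hx2) (Or.inr hy1))
      · exact walk_comp w1 (walk_comp (walk_one h (Or.inl hx2) (Or.inr hy2)) w2)
  -- the roots
  let A := S ∪ P ∪ Q
  have hAmem : ∀ x ∈ A, x ∈ S ∨ x ∈ P ∨ x ∈ Q := by
    intro x hx
    rcases Finset.mem_union.1 hx with hx | hx
    · rcases Finset.mem_union.1 hx with hx | hx
      · exact Or.inl hx
      · exact Or.inr (Or.inl hx)
    · exact Or.inr (Or.inr hx)
  have hrel : ∀ x ∈ A, ∀ y ∈ A, x ≠ y → Rl x y := by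
    intro x hx y hy hne
    rcases hAmem x hx with hx | hx | hx <;> rcases hAmem y hy with hy | hy | hy
    · exact rSS x hx y hy hne
    · exact rSP x hx y hy
    · exact hsymm _ _ (rQS y hy x hx)
    · exact hsymm _ _ (rSP y hy x hx)
    · exact rPP x hx y hy hne
    · exact hsymm _ _ (rQP y hy x hx)
    · exact rQS x hx y hy
    · exact rQP x hx y hy
    · exact rQQ x hx y hy hne
  have hAcard : K + Q.card ≤ A.card := by
    have h1 : Disjoint (S ∪ P) Q := by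
      rw [Finset.disjoint_left]
      intro u hu
      rcases Finset.mem_union.1 hu with hu | hu
      · exact hSQ u hu
      · exact hNQ u (hPN u hu).1.1
    have h2 : Disjoint S P := by
      rw [Finset.disjoint_left]
      intro u hu hu'
      exact (hPN u hu').1.2 hu
    rw [Finset.card_union_of_disjoint h1, Finset.card_union_of_disjoint h2]
    omega
  exact scheme_of_roots G A B (fun x hx => hself x (hAmem x hx))
    (fun x hx y hy hne => (hrel x hx y hy hne).1) (fun x hx y hy hne => (hrel x hx y hy hne).2)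
    (K + Q.card) hAcard

/-- **The main theorem** -/
theorem main (G : SimpleGraph V) (W Q : Finset V) (hQW : Q ⊆ W) (hQ : Q.Nonempty)
    (hcl : ∀ a ∈ Q, ∀ b ∈ Q, a ≠ b → G.Adj a b)
    (hW : ∀ g : V → ℕ, (∀ w ∈ W, g w < K + (Q.card - 1)) →
      ∃ a ∈ W, ∃ b ∈ W, G.Adj a b ∧ g a = g b)
    (c : V → Fin K) (hc : Proper G (W \ Q) c)
    (N T : Finset V) (hN : ∀ w, w ∈ N ↔ w ∈ W ∧ ∀ v ∈ Q, G.Adj v w)
    (hTN : T ⊆ N) (hT2 : ∀ w ∈ T, ∃ u ∈ T, u ≠ w ∧ c u = c w)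
    (hfull : ∀ w ∈ N, w ∉ T → (∀ u ∈ N, c u = c w → u = w) ∨
      ∃ u ∈ N, c u = c w ∧ ∀ x ∈ N, c x ≠ c u → G.Adj u x)
    (hTc : ∀ w ∈ T, ∀ u ∈ N, c u = c w → u ∈ T)
    (D D' : ℕ)
    (hD : ∀ w ∈ T, ∀ A ⊆ N, (∀ u ∈ A, u ≠ w ∧ ¬ G.Adj w u) → A.card ≤ D)
    (hD' : ∀ w ∈ N, ∀ A ⊆ T, (∀ u ∈ A, u ≠ w ∧ ¬ G.Adj w u) → A.card ≤ D')
    (hbig : T = ∅ ∨ 2 * (D * D') + 2 ≤ T.card) :
    HasScheme G (K + Q.card) := by
  classical
  have hNZ : N ⊆ W \ Q := by
    intro w hw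
    obtain ⟨h1, h2⟩ := (hN w).1 hw
    exact Finset.mem_sdiff.2 ⟨h1, fun h => (h2 w h).ne rfl⟩
  let S := N.filter (fun w => ∀ u ∈ N, c u = c w → u = w)
  have hS : ∀ w, w ∈ S ↔ w ∈ N ∧ ∀ u ∈ N, c u = c w → u = w := fun w => Finset.mem_filter
  have hSN : S ⊆ N := fun w hw => ((hS w).1 hw).1
  have hST : ∀ w ∈ T, w ∉ S := by
    intro w hw hw'
    obtain ⟨u, hu, hne, hcu⟩ := hT2 w hw
    exact hne (((hS w).1 hw').2 u (hTN hu) hcu)
  have hall : ∀ i, ∃ x ∈ N, c x = i := by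
    intro i
    obtain ⟨x, hx, hQx, hcx⟩ := every_colour G W Q hQW hQ hcl hW c hc i
    exact ⟨x, (hN x).2 ⟨(Finset.mem_sdiff.1 hx).1, hQx⟩, hcx⟩
  have hSinj : Set.InjOn c (S : Set V) := by
    intro x hx y hy hxy
    exact ((hS y).1 (Finset.mem_coe.1 hy)).2 x (hSN (Finset.mem_coe.1 hx)) hxy
  have hSim : (S.image c).card = S.card := Finset.card_image_of_injOn hSinj
  -- the number of the classes in `T`
  have hTR : 2 * (T.image c).card ≤ T.card := by
    have h2 := Finset.card_eq_sum_card_image c T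
    rw [h2, mul_comm, ← smul_eq_mul]
    refine Finset.card_nsmul_le_sum _ _ 2 ?_
    intro i hi
    obtain ⟨w, hw, hwi⟩ := Finset.mem_image.1 hi
    obtain ⟨u, hu, hne, hcu⟩ := hT2 w hw
    exact Finset.one_lt_card.2 ⟨w, Finset.mem_filter.2 ⟨hw, hwi⟩, u,
      Finset.mem_filter.2 ⟨hu, hcu.trans hwi⟩, hne.symm⟩
  obtain ⟨P1, π, hPT, hPcard, hπT, hπadj, hPne, hPdom⟩ := choose_pairs G N T hTN D D'
    hD hD' (T.image c).card hTR hbig
  -- the colours of the full classes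
  let I : Finset (Fin K) := Finset.univ \ (S.image c ∪ T.image c)
  have hI : ∀ i ∈ I, ∃ u, u ∈ N ∧ c u = i ∧ u ∉ S ∧ u ∉ T ∧ ∀ x ∈ N, c x ≠ c u → G.Adj u x := by
    intro i hi
    obtain ⟨x, hx, hcx⟩ := hall i
    have hi' := (Finset.mem_sdiff.1 hi).2
    rw [Finset.mem_union, not_or] at hi'
    obtain ⟨hi1, hi2⟩ := hi'
    have hcS : ∀ y, c y = i → y ∉ S := fun y hy h => hi1 (Finset.mem_image.2 ⟨y, h, hy⟩)
    have hcT : ∀ y, c y = i → y ∉ T := fun y hy h => hi2 (Finset.mem_image.2 ⟨y, h, hy⟩)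
    rcases hfull x hx (hcT x hcx) with h | ⟨u, hu, hcu, h⟩
    · exact absurd ((hS x).2 ⟨hx, h⟩) (hcS x hcx)
    · exact ⟨u, hu, hcu.trans hcx, hcS u (hcu.trans hcx), hcT u (hcu.trans hcx), h⟩
  have hfex : ∃ f : Fin K → V, ∀ i ∈ I, f i ∈ N ∧ c (f i) = i ∧ f i ∉ S ∧ f i ∉ T ∧
      ∀ x ∈ N, c x ≠ c (f i) → G.Adj (f i) x := by
    obtain ⟨v0, -⟩ := hQ
    refine ⟨fun i => if h : i ∈ I then (hI i h).choose else v0, ?_⟩
    intro i hi
    simp only [dif_pos hi]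
    exact (hI i hi).choose_spec
  obtain ⟨f, hf⟩ := hfex
  let F0 := I.image f
  have hF0 : ∀ y ∈ F0, y ∈ N ∧ y ∉ S ∧ y ∉ T ∧ ∀ x ∈ N, c x ≠ c y → G.Adj y x := by
    intro y hy
    obtain ⟨i, hi, rfl⟩ := Finset.mem_image.1 hy
    obtain ⟨h1, -, h2, h3, h4⟩ := hf i hi
    exact ⟨h1, h2, h3, h4⟩
  have hF0inj : ∀ y ∈ F0, ∀ z ∈ F0, c y = c z → y = z := by
    intro y hy z hz h
    obtain ⟨i, hi, rfl⟩ := Finset.mem_image.1 hy
    obtain ⟨j, hj, rfl⟩ := Finset.mem_image.1 hz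
    rw [(hf i hi).2.1, (hf j hj).2.1] at h
    rw [h]
  have hF0card : F0.card = I.card := by
    refine Finset.card_image_of_injOn ?_
    intro i hi j hj h
    have h1 := (hf i (Finset.mem_coe.1 hi)).2.1
    have h2 := (hf j (Finset.mem_coe.1 hj)).2.1
    have h3 : c (f i) = c (f j) := congrArg c h
    rw [h1, h2] at h3
    exact h3
  have hF0P : ∀ y ∈ F0, y ∉ P1 := fun y hy h => (hF0 y hy).2.2.1 (hPT h)
  have hcolFT : ∀ y ∈ F0, ∀ z ∈ T, c z ≠ c y := fun y hy z hz h =>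
    (hF0 y hy).2.2.1 (hTc z hz y (hF0 y hy).1 h.symm)
  let π' : V → V := fun y => if y ∈ F0 then y else π y
  have hπ1 : ∀ y ∈ F0, π' y = y := fun y hy => if_pos hy
  have hπ2 : ∀ y ∈ P1, π' y = π y := fun y hy => if_neg (fun h => hF0P y h hy)
  refine assemble G W Q hQW hQ hcl hW c hc N S hN hS (F0 ∪ P1) π' ?_ ?_ ?_ ?_ ?_ ?_
  · intro y hy
    rcases Finset.mem_union.1 hy with hy | hy
    · rw [hπ1 y hy]
      exact ⟨⟨(hF0 y hy).1, (hF0 y hy).2.1⟩, ⟨(hF0 y hy).1, (hF0 y hy).2.1⟩⟩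
    · rw [hπ2 y hy]
      exact ⟨⟨hTN (hPT hy), hST y (hPT hy)⟩, ⟨hTN (hπT y hy), hST _ (hπT y hy)⟩⟩
  · intro y hy
    rcases Finset.mem_union.1 hy with hy | hy
    · exact Or.inl (hπ1 y hy)
    · rw [hπ2 y hy]
      exact Or.inr (hπadj y hy)
  · intro y hy z hz hyz
    rcases Finset.mem_union.1 hy with hy | hy <;> rcases Finset.mem_union.1 hz with hz | hz
    · rw [hπ1 y hy, hπ1 z hz]
      exact ⟨hyz, hyz⟩
    · rw [hπ1 y hy, hπ2 z hz]
      have h1 : y ≠ π z := fun h => (hF0 y hy).2.2.1 (h ▸ hπT z hz)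
      exact ⟨h1, h1⟩
    · rw [hπ2 y hy, hπ1 z hz]
      exact ⟨hyz, fun h => (hF0 z hz).2.2.1 (h ▸ hπT y hy)⟩
    · rw [hπ2 y hy, hπ2 z hz]
      exact hPne y hy z hz hyz
  · intro y hy x hx
    rcases Finset.mem_union.1 hy with hy | hy
    · left
      refine ((hF0 y hy).2.2.2 x (hSN hx) ?_).symm
      intro h
      have := ((hS x).1 hx).2 y (hF0 y hy).1 h.symm
      subst this
      exact (hF0 y hy).2.1 hx
    · rw [hπ2 y hy]
      refine hPdom y hy x (hSN hx) ?_ ?_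
      · rintro rfl
        exact hST _ (hPT hy) hx
      · rintro rfl
        exact hST _ (hπT y hy) hx
  · intro y hy z hz hyz
    rcases Finset.mem_union.1 hy with hy | hy <;> rcases Finset.mem_union.1 hz with hz | hz
    · exact Or.inl ((hF0 y hy).2.2.2 z (hF0 z hz).1 (fun h => hyz (hF0inj y hy z hz h.symm)))
    · exact Or.inl ((hF0 y hy).2.2.2 z (hTN (hPT hz)) (hcolFT y hy z (hPT hz)))
    · exact Or.inl ((hF0 z hz).2.2.2 y (hTN (hPT hy)) (hcolFT z hz y (hPT hy))).symm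
    · rw [hπ2 y hy, hπ2 z hz]
      obtain ⟨h1, -⟩ := hPne z hz y hy hyz.symm
      rcases hPdom y hy z (hTN (hPT hz)) hyz.symm h1 with h | h
      · exact Or.inl h.symm
      · exact Or.inr (Or.inr (Or.inl h.symm))
  · have h1 : Disjoint F0 P1 := by
      rw [Finset.disjoint_left]
      exact hF0P
    rw [Finset.card_union_of_disjoint h1, hF0card, hPcard]
    have h2 : K ≤ I.card + (S.image c ∪ T.image c).card := by
      have h3 := Finset.card_sdiff_add_card (Finset.univ : Finset (Fin K))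
        (S.image c ∪ T.image c)
      have h4 := Finset.card_le_card (Finset.subset_union_left (s₁ := (Finset.univ :
        Finset (Fin K))) (s₂ := S.image c ∪ T.image c))
      rw [Finset.card_univ, Fintype.card_fin] at h4
      change I.card + _ = _ at h3
      omega
    have h5 := Finset.card_union_le (S.image c) (T.image c)
    rw [hSim] at h5
    omega

end Pool.Agent.Helper70.CC
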