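import Mathlib
import Pool.Agent.Helper70.CC.Main

/-!
# Schemes from critical cliques: the final statements
-/

set_option autoImplicit false
set_option linter.unusedSectionVars false
set_option linter.unusedVariables false

namespace Pool.Agent.Helper70.CC

open Relation Pool.Agent.Helper54.Scheme

variable {V : Type} {K : ℕ}

/-- the hypothesis on the chromatic number in terms of maps to the natural numbers -/
theorem conv_col [Fintype V] [DecidableEq V] (G : SimpleGraph V) (W : Set V) (n : ℕ) (W' : Finset V)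
    (hW' : ∀ w, w ∈ W' ↔ w ∈ W) (h : ¬ (G.induce W).Colorable n) :
    ∀ g : V → ℕ, (∀ w ∈ W', g w < n) → ∃ a ∈ W', ∃ b ∈ W', G.Adj a b ∧ g a = g b := by
  intro g hg
  by_contra hno
  push Not at hno
  apply h
  refine ⟨SimpleGraph.Coloring.mk (fun u : W => (⟨g u, hg u ((hW' u).2 u.2)⟩ : Fin n)) ?_⟩
  intro a b hab
  have hab' : G.Adj (a : V) (b : V) := hab
  intro he
  exact hno a ((hW' _).2 a.2) b ((hW' _).2 b.2) hab' (congrArg Fin.val he)

/-- the case with a given colouring -/
theorem final_col [Finite V] (G : SimpleGraph V) (W Q : Set V) (D D' : ℕ) (hQW : Q ⊆ W)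
    (hQ : Q.Nonempty) (hcl : G.IsClique Q)
    (hW : ¬ (G.induce W).Colorable (K + Q.ncard - 1)) (N T : Set V)
    (hN : N = {w ∈ W | ∀ v ∈ Q, G.Adj v w}) (c : V → Fin K)
    (hc : ∀ a ∈ W \ Q, ∀ b ∈ W \ Q, G.Adj a b → c a ≠ c b)
    (hTN : T ⊆ N) (hT2 : ∀ w ∈ T, ∃ u ∈ T, u ≠ w ∧ c u = c w)
    (hTc : ∀ w ∈ T, ∀ u ∈ N, c u = c w → u ∈ T)
    (hfull : ∀ w ∈ N \ T, (∀ u ∈ N, c u = c w → u = w) ∨
      ∃ u ∈ N, c u = c w ∧ ∀ x ∈ N, c x ≠ c u → G.Adj u x)
    (hD : ∀ w ∈ T, {u ∈ N | u ≠ w ∧ ¬ G.Adj w u}.ncard ≤ D)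
    (hD' : ∀ w ∈ N, {u ∈ T | u ≠ w ∧ ¬ G.Adj w u}.ncard ≤ D')
    (hbig : T = ∅ ∨ 2 * (D * D') + 2 ≤ T.ncard) :
    HasScheme G (K + Q.ncard) := by
  classical
  have _ := Fintype.ofFinite V
  have hQc : Q.ncard = Q.toFinset.card := Set.ncard_eq_toFinset_card' Q
  have hQpos : 0 < Q.ncard := (Set.ncard_pos (Set.toFinite Q)).2 hQ
  rw [hQc]
  refine main (K := K) G W.toFinset Q.toFinset ?_ ?_ ?_ ?_ c ?_ N.toFinset T.toFinset ?_ ?_ ?_
    ?_ ?_ D D' ?_ ?_ ?_
  · exact Set.toFinset_subset_toFinset.2 hQW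
  · exact Set.toFinset_nonempty.2 hQ
  · intro a ha b hb hab
    exact hcl (Set.mem_toFinset.1 ha) (Set.mem_toFinset.1 hb) hab
  · refine conv_col G W _ W.toFinset (fun w => Set.mem_toFinset) ?_
    rw [← hQc, ← Nat.add_sub_assoc hQpos]
    exact hW
  · intro a ha b hb hab
    rw [Finset.mem_sdiff, Set.mem_toFinset, Set.mem_toFinset] at ha hb
    exact hc a ha b hb hab
  · intro w
    rw [Set.mem_toFinset, Set.mem_toFinset, hN]
    constructor
    · rintro ⟨h1, h2⟩
      exact ⟨h1, fun v hv => h2 v (Set.mem_toFinset.1 hv)⟩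
    · rintro ⟨h1, h2⟩
      exact ⟨h1, fun v hv => h2 v (Set.mem_toFinset.2 hv)⟩
  · exact Set.toFinset_subset_toFinset.2 hTN
  · intro w hw
    obtain ⟨u, hu, h1, h2⟩ := hT2 w (Set.mem_toFinset.1 hw)
    exact ⟨u, Set.mem_toFinset.2 hu, h1, h2⟩
  · intro w hw hwT
    rw [Set.mem_toFinset] at hw hwT
    rcases hfull w ⟨hw, hwT⟩ with h | ⟨u, hu, h1, h2⟩
    · exact Or.inl fun u hu => h u (Set.mem_toFinset.1 hu)
    · exact Or.inr ⟨u, Set.mem_toFinset.2 hu, h1, fun x hx => h2 x (Set.mem_toFinset.1 hx)⟩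
  · intro w hw u hu h
    rw [Set.mem_toFinset] at hw hu ⊢
    exact hTc w hw u hu h
  · intro w hw A hA hAw
    refine le_trans ?_ (hD w (Set.mem_toFinset.1 hw))
    rw [← Set.ncard_coe_finset A]
    refine Set.ncard_le_ncard ?_ (Set.toFinite _)
    intro u hu
    exact ⟨Set.mem_toFinset.1 (hA (Finset.mem_coe.1 hu)), hAw u (Finset.mem_coe.1 hu)⟩
  · intro w hw A hA hAw
    refine le_trans ?_ (hD' w (Set.mem_toFinset.1 hw))
    rw [← Set.ncard_coe_finset A]
    refine Set.ncard_le_ncard ?_ (Set.toFinite _)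
    intro u hu
    exact ⟨Set.mem_toFinset.1 (hA (Finset.mem_coe.1 hu)), hAw u (Finset.mem_coe.1 hu)⟩
  · rcases hbig with h | h
    · left
      rw [Set.toFinset_eq_empty]
      exact h
    · right
      rw [Set.ncard_eq_toFinset_card'] at h
      exact h

/-- the case without a colouring -/
theorem final_free [Finite V] (G : SimpleGraph V) (W Q : Set V) (D : ℕ) (hQW : Q ⊆ W)
    (hQ : Q.Nonempty) (hcl : G.IsClique Q)
    (hW : ¬ (G.induce W).Colorable (K + Q.ncard - 1)) (hZ : (G.induce (W \ Q)).Colorable K)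
    (N : Set V) (hN : N = {w ∈ W | ∀ v ∈ Q, G.Adj v w})
    (hD : ∀ w ∈ N, {u ∈ N | u ≠ w ∧ ¬ G.Adj w u}.ncard ≤ D)
    (hbig : D ≤ 1 ∨ N.ncard = K ∨ (D + 1) * K + D * (2 * D ^ 2 + 1) < (D + 1) * N.ncard) :
    HasScheme G (K + Q.ncard) := by
  classical
  have _ := Fintype.ofFinite V
  have hQpos : 0 < Q.ncard := (Set.ncard_pos (Set.toFinite Q)).2 hQ
  rcases Nat.eq_zero_or_pos K with hK0 | hK
  · -- the clique itself
    rw [hK0, zero_add, Set.ncard_eq_toFinset_card' Q]
    refine scheme_of_roots G Q.toFinset (fun x => {x}) (fun x _ => Set.mem_singleton x) ?_ ?_ _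
      le_rfl
    · intro x _ y _ hxy
      exact Set.disjoint_singleton.2 hxy
    · intro x hx y hy hxy
      exact walk_one (hcl (Set.mem_toFinset.1 hx) (Set.mem_toFinset.1 hy) hxy)
        (Or.inl (Set.mem_singleton x)) (Or.inr (Set.mem_singleton y))
  obtain ⟨C⟩ := hZ
  let c : V → Fin K := fun u => if h : u ∈ W \ Q then C ⟨u, h⟩ else ⟨0, hK⟩
  have hc : ∀ a ∈ W \ Q, ∀ b ∈ W \ Q, G.Adj a b → c a ≠ c b := by
    intro a ha b hb hab
    simp only [c]
    rw [dif_pos ha, dif_pos hb]
    exact C.valid (v := ⟨a, ha⟩) (w := ⟨b, hb⟩) hab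
  have hNZ : ∀ w ∈ N, w ∈ W \ Q := by
    intro w hw
    rw [hN] at hw
    exact ⟨hw.1, fun h => (hw.2 w h).ne rfl⟩
  have hcN : ∀ a ∈ N, ∀ b ∈ N, c a = c b → ¬ G.Adj a b := fun a ha b hb h hab =>
    hc a (hNZ a ha) b (hNZ b hb) hab h
  have hall : ∀ i, ∃ x ∈ N, c x = i := by
    intro i
    have hQc : Q.ncard = Q.toFinset.card := Set.ncard_eq_toFinset_card' Q
    obtain ⟨x, hx, hQx, hcx⟩ := every_colour (K := K) G W.toFinset Q.toFinset
      (Set.toFinset_subset_toFinset.2 hQW) (Set.toFinset_nonempty.2 hQ)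
      (fun a ha b hb hab => hcl (Set.mem_toFinset.1 ha) (Set.mem_toFinset.1 hb) hab)
      (by
        refine conv_col G W _ W.toFinset (fun w => Set.mem_toFinset) ?_
        rw [← hQc, ← Nat.add_sub_assoc hQpos]
        exact hW) c (by
        intro a ha b hb hab
        rw [Finset.mem_sdiff, Set.mem_toFinset, Set.mem_toFinset] at ha hb
        exact hc a ha b hb hab) i
    refine ⟨x, ?_, hcx⟩
    rw [hN]
    rw [Finset.mem_sdiff, Set.mem_toFinset, Set.mem_toFinset] at hx
    exact ⟨hx.1, fun v hv => hQx v (Set.mem_toFinset.2 hv)⟩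
  -- two cases without pairs
  have hempty : (∀ w ∈ N, (∀ u ∈ N, c u = c w → u = w) ∨
      ∃ u ∈ N, c u = c w ∧ ∀ x ∈ N, c x ≠ c u → G.Adj u x) → HasScheme G (K + Q.ncard) := by
    intro h
    exact final_col (K := K) G W Q 0 0 hQW hQ hcl hW N ∅ hN c hc (Set.empty_subset _)
      (fun w hw => absurd hw (Set.notMem_empty w)) (fun w hw => absurd hw (Set.notMem_empty w))
      (fun w hw => h w hw.1) (fun w hw => absurd hw (Set.notMem_empty w)) (by
        intro w _
        have : {u ∈ (∅ : Set V) | u ≠ w ∧ ¬ G.Adj w u} = ∅ := by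
          ext u
          simp
        rw [this, Set.ncard_empty]) (Or.inl rfl)
  rcases hbig with h1 | h1 | h1
  · apply hempty
    intro w hw
    by_contra hcon
    rw [not_or] at hcon
    obtain ⟨h2, h3⟩ := hcon
    push Not at h2 h3
    obtain ⟨u, hu, hcu, hne⟩ := h2
    obtain ⟨x, hx, hcx, hadj⟩ := h3 w hw rfl
    have hsub : ({u, x} : Set V) ⊆ {u ∈ N | u ≠ w ∧ ¬ G.Adj w u} := by
      rintro z (rfl | hz)
      · exact ⟨hu, hne, hcN w hw z hu hcu.symm⟩
      · rw [Set.mem_singleton_iff] at hz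
        rw [hz]
        exact ⟨hx, fun h => hcx (by rw [h]), hadj⟩
    have hux : u ≠ x := fun h => hcx (by rw [← h]; exact hcu)
    have h4 := Set.ncard_le_ncard hsub (Set.toFinite _)
    rw [Set.ncard_pair hux] at h4
    have h5 := hD w hw
    omega
  · apply hempty
    intro w hw
    left
    intro u hu hcu
    have hN' : N.toFinset.card = K := by
      rw [← Set.ncard_eq_toFinset_card']
      exact h1
    have him : N.toFinset.image c = Finset.univ := by
      ext i
      simp only [Finset.mem_image, Finset.mem_univ, iff_true]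
      obtain ⟨x, hx, hcx⟩ := hall i
      exact ⟨x, Set.mem_toFinset.2 hx, hcx⟩
    have hinj : Set.InjOn c (N.toFinset : Set V) := by
      rw [← Finset.card_image_iff, him, Finset.card_univ, Fintype.card_fin, hN']
    exact hinj (Finset.mem_coe.2 (Set.mem_toFinset.2 hu)) (Finset.mem_coe.2 (Set.mem_toFinset.2 hw))
      hcu
  · -- the repeated colours
    let T : Set V := {w ∈ N | ∃ u ∈ N, u ≠ w ∧ c u = c w}
    have hTN : T ⊆ N := fun w hw => hw.1
    refine final_col (K := K) G W Q D D hQW hQ hcl hW N T hN c hc hTN ?_ ?_ ?_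
      (fun w hw => hD w (hTN hw)) ?_ ?_
    · rintro w ⟨hw, u, hu, hne, hcu⟩
      exact ⟨u, ⟨hu, w, hw, hne.symm, hcu.symm⟩, hne, hcu⟩
    · rintro w ⟨hw, u, hu, hne, hcu⟩ z hz hcz
      by_cases hzw : z = w
      · rw [hzw]
        exact ⟨hw, u, hu, hne, hcu⟩
      · exact ⟨hz, w, hw, fun h => hzw h.symm, hcz.symm⟩
    · rintro w ⟨hw, hwT⟩
      left
      intro u hu hcu
      by_contra hne
      exact hwT ⟨hw, u, hu, hne, hcu⟩
    · intro w hw
      refine le_trans (Set.ncard_le_ncard ?_ (Set.toFinite _)) (hD w hw)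
      rintro u ⟨hu, h⟩
      exact ⟨hTN hu, h⟩
    · -- counting
      right
      let T' := T.toFinset
      let S' := N.toFinset \ T'
      have hTc : T.ncard = T'.card := Set.ncard_eq_toFinset_card' T
      have hNc : N.ncard = S'.card + T'.card := by
        rw [Set.ncard_eq_toFinset_card', Finset.card_sdiff_add_card_eq_card]
        exact Set.toFinset_subset_toFinset.2 hTN
      have hSu : ∀ w ∈ S', w ∈ N ∧ ∀ u ∈ N, c u = c w → u = w := by
        intro w hw
        rw [Finset.mem_sdiff, Set.mem_toFinset, Set.mem_toFinset] at hw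
        refine ⟨hw.1, fun u hu hcu => ?_⟩
        by_contra hne
        exact hw.2 ⟨hw.1, u, hu, hne, hcu⟩
      have hSinj : (S'.image c).card = S'.card := by
        refine Finset.card_image_of_injOn ?_
        intro x hx y hy hxy
        exact (hSu y (Finset.mem_coe.1 hy)).2 x (hSu x (Finset.mem_coe.1 hx)).1 hxy
      have hdis : Disjoint (S'.image c) (T'.image c) := by
        rw [Finset.disjoint_left]
        intro i hi hi'
        obtain ⟨x, hx, rfl⟩ := Finset.mem_image.1 hi
        obtain ⟨y, hy, hyx⟩ := Finset.mem_image.1 hi'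
        have hyT : y ∈ T := Set.mem_toFinset.1 hy
        have := (hSu x hx).2 y (hTN hyT) hyx
        rw [this] at hyT
        rw [Finset.mem_sdiff] at hx
        exact hx.2 (Set.mem_toFinset.2 hyT)
      have hcount : S'.card + (T'.image c).card ≤ K := by
        rw [← hSinj, ← Finset.card_union_of_disjoint hdis]
        have := Finset.card_le_univ (S'.image c ∪ T'.image c)
        rwa [Fintype.card_fin] at this
      have hTr : T'.card ≤ (D + 1) * (T'.image c).card := by
        refine Finset.card_le_mul_card_image T' (D + 1) ?_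
        intro i hi
        obtain ⟨w, hw, hwi⟩ := Finset.mem_image.1 hi
        have hwT : w ∈ T := Set.mem_toFinset.1 hw
        have hsub : (T'.filter (fun x => c x = i)).erase w ⊆
            ({u ∈ N | u ≠ w ∧ ¬ G.Adj w u} : Set V).toFinset := by
          intro u hu
          obtain ⟨h2, h3⟩ := Finset.mem_erase.1 hu
          obtain ⟨h4, h5⟩ := Finset.mem_filter.1 h3
          rw [Set.mem_toFinset]
          have huN : u ∈ N := hTN (Set.mem_toFinset.1 h4)
          exact ⟨huN, h2, hcN w (hTN hwT) u huN (hwi.trans h5.symm)⟩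
        have h2 := Finset.card_le_card hsub
        rw [← Set.ncard_eq_toFinset_card'] at h2
        have h3 := hD w (hTN hwT)
        have h4 : (T'.filter (fun x => c x = i)).card ≤
            ((T'.filter (fun x => c x = i)).erase w).card + 1 := by
          have := Finset.card_erase_add_one (s := T'.filter (fun x => c x = i)) (a := w)
            (Finset.mem_filter.2 ⟨hw, hwi⟩)
          omega
        omega
      rw [hTc]
      rw [hNc] at h1
      by_contra hlt
      push Not at hlt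
      have h2 : T'.card ≤ 2 * D ^ 2 + 1 := by
        have : D * D = D ^ 2 := by ring
        rw [this] at hlt
        omega
      have h3 : D * T'.card ≤ D * (2 * D ^ 2 + 1) := Nat.mul_le_mul_left _ h2
      have h4 : (D + 1) * (S'.card + (T'.image c).card) ≤ (D + 1) * K :=
        Nat.mul_le_mul_left _ hcount
      nlinarith

end Pool.Agent.Helper70.CC
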